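import Pool.Agent.Run7.h45.Ch10

/-!
# Dade's ordinary conjecture: all or nothing, in one sequence of groups

`O` is a valuation subring of `ℂ` whose maximal ideal contains `p`; blocks, defect groups and block
induction are defined by central characters modulo this maximal ideal. Let `q ≥ 2` be an integer not
divisible by `p` and `Γ_n = M_n(ℤ/q) ⋊ S_n` the semidirect product of the additive group of the
`n × n` matrices over `ℤ/q` with `S_n`, which permutes the rows and the columns simultaneously.

Proof. For every finite group `G` there is a constant `c` such that for all `n ≥ c k` the direct power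
`G^k` is the stabiliser in `S_n` of a character of `M_n(ℤ/q)`. So for every block `B` of `G` the
polynomial `F(x) = ∑_d S_d(B) x^d` has the property that `F^k` is the polynomial of a block of `Γ_n`. If
the coefficients of these polynomials are at most `exp (ε n)`, then, since `F(1)^k ≥ 0` for even `k`,
their absolute values have a sum of size `exp (ε n)` up to a factor `O(n)`. It follows that `|F(t)| ≤ 1`
on the unit circle and, by Parseval's identity, `∑_d S_d(B)² ≤ 1`. For odd `p` the recursion
`2 F_{B ≀ C₂}(x) = F_B(x)² + 3 F_B(x²)` gives `F = 0`.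
-/

set_option autoImplicit false

noncomputable section

namespace Pool.Agent.Results.MP_3f89b9_al.AllOrNothing

open Filter
open Pool.Agent.Y63.KR (alternatingSum chainSetoid chainStabilizer)
open Pool.Agent.Q90.WR (IndS AdmB)
open Run7.h45 (MatGrp)

/-- `k^d(B_σ)` for `G_σ = H`: the number of the irreducible characters `θ` of the subgroup `H` of
`p`-defect `d` with `bl(θ)^G = B`. -/
def kB (p : ℕ) (O : ValuationSubring ℂ) (d : ℕ) {G : Type} [Group G] (B : Set (G → ℂ))
    (H : Subgroup G) : ℕ :=
  Nat.card {θ : H → ℂ // θ ∈ IndS O B (Subtype.val : H → G) ∧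
    ∃ n : ℕ, θ 1 = (n : ℂ) ∧ n.factorization p + d = (Nat.card H).factorization p}

/-- Dade's alternating sum `∑_σ (-1)^|σ| k^d(B_σ)` over representatives `σ` of the `G`-classes of
chains of nontrivial `p`-subgroups of `G`, the empty chain included. -/
def S (p : ℕ) (O : ValuationSubring ℂ) (d : ℕ) {G : Type} [Group G] (B : Set (G → ℂ)) : ℤ :=
  alternatingSum p G (fun H => (kB p O d B H : ℤ))

/-- For every `ε > 0` there are infinitely many `n` such that `S_d(B) ≤ exp (ε n)` for all `d` and all
blocks `B` of `M_n(ℤ/q) ⋊ S_n` with nontrivial defect groups. -/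
def Subexp (p : ℕ) (O : ValuationSubring ℂ) (q : ℕ) : Prop :=
  ∀ ε : ℝ, 0 < ε → ∃ᶠ n : ℕ in atTop, ∀ B : Set (MatGrp q n → ℂ), AdmB p O (MatGrp q n) B →
    ∀ d, (S p O d B : ℝ) ≤ Real.exp (ε * n)

/-- **All or nothing.** Let `p` be a prime and `q ≥ 2` an integer not divisible by `p`. (1) The bound
`S_d(B) ≤ exp (ε n)`, for every `ε > 0`, infinitely many `n`, all blocks `B` of `M_n(ℤ/q) ⋊ S_n` with
nontrivial defect groups and all `d`, holds if and only if `∑_d S_d(B)² ≤ 1` for all finite groups `G`
with `O_p(G) = 1` and all blocks `B` of `G` with nontrivial defect groups. (2) If `p` is odd, it holds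
if and only if `S_d(B) = 0` for all these `G`, `B` and all `d`. -/
theorem result (p : ℕ) [Fact p.Prime] (O : ValuationSubring ℂ) (hpO : (p : ℂ) ∈ O.nonunits)
    (q : ℕ) (hq : 2 ≤ q) (hpq : ¬ p ∣ q) :
    (Subexp p O q ↔ ∀ (G : Type) [Group G] (B : Set (G → ℂ)), AdmB p O G B →
      ∑ d ∈ Finset.range ((Nat.card G).factorization p + 1), S p O d B ^ 2 ≤ 1) ∧
    (p ≠ 2 → (Subexp p O q ↔
      ∀ (G : Type) [Group G] (B : Set (G → ℂ)), AdmB p O G B → ∀ d, S p O d B = 0)) := by
  have key : Subexp p O q ↔ ∀ (G : Type) [Group G] (B : Set (G → ℂ)), AdmB p O G B →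
      ∑ d ∈ Finset.range ((Nat.card G).factorization p + 1), S p O d B ^ 2 ≤ 1 :=
    ⟨fun h G _ B hB => Run7.h45.dade_grow_mat hpO hq hpq h G B hB,
      fun h ε hε => Frequently.of_forall fun n B hB d =>
        Run7.h45.grow_of_sq hB (h _ B hB) (Real.one_le_exp (by positivity)) d⟩
  refine ⟨key, fun hp2 => ⟨fun h => ?_, fun h ε hε => Frequently.of_forall fun n B hB d => ?_⟩⟩
  · exact Run7.h45.dade_of_one hp2 hpO fun G _ B hB => Run7.h45.def_le_one hB (key.1 h G B hB)
  · rw [h _ B hB d, Int.cast_zero]
    exact (Real.exp_pos _).le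

end Pool.Agent.Results.MP_3f89b9_al.AllOrNothing
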