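import Pool.Agent.Run7.h45.Ch10

/-!
# Dade's ordinary conjecture for odd primes: parity decides, in one sequence of groups

`O` is a valuation subring of `ℂ` whose maximal ideal contains `p`; blocks, defect groups and block
induction are defined by central characters modulo this maximal ideal. Let `q ≥ 2` be an integer not
divisible by `p` and `Γ_n = M_n(ℤ/q) ⋊ S_n` the semidirect product of the additive group of the
`n × n` matrices over `ℤ/q` with `S_n`, which permutes the rows and the columns simultaneously.

Proof. For every block `B` of a finite group `G` and all large `n` there is a block `B'` of `Γ_n` with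
`S_d(B') = S_d(B)` for all `d` (`Run7.h45.blkDef_up`). So all `S_d(B)` are even if they are even for the
groups `Γ_n`. For odd `p` this implies `S_d(B) = 0`, by the recursion for the blocks of wreath products
`G ≀ C₂` (`Pool.Agent.Q90.WR.bd_one`). The sum `T_d(B)` without signs has the same parity.
-/

set_option autoImplicit false

noncomputable section

namespace Pool.Agent.Results.MP_3f89b9_al.ParityInFamily

open Pool.Agent.Y63.KR (alternatingSum chainSetoid chainStabilizer)
open Pool.Agent.Q90.WR (IndS AdmB)
open Run7.h45 (MatGrp)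

/-- `k^d(B_σ)` for `G_σ = H`: the number of the irreducible characters `θ` of the subgroup `H` of
`p`-defect `d` with `bl(θ)^G = B`. -/
def kB (p : ℕ) (O : ValuationSubring ℂ) (d : ℕ) {G : Type} [Group G] (B : Set (G → ℂ))
    (H : Subgroup G) : ℕ :=
  Nat.card {θ : H → ℂ // θ ∈ IndS O B (Subtype.val : H → G) ∧
    ∃ n : ℕ, θ 1 = (n : ℂ) ∧ n.factorization p + d = (Nat.card H).factorization p}

/-- Dade's alternating sum `∑_σ (-1)^|σ| k^d(B_σ)` over representatives `σ` of the `G`-classes of
chains of nontrivial `p`-subgroups of `G`, the empty chain included. -/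
def S (p : ℕ) (O : ValuationSubring ℂ) (d : ℕ) {G : Type} [Group G] (B : Set (G → ℂ)) : ℤ :=
  alternatingSum p G (fun H => (kB p O d B H : ℤ))

/-- The same sum without signs. -/
def T (p : ℕ) (O : ValuationSubring ℂ) (d : ℕ) {G : Type} [Group G] (B : Set (G → ℂ)) : ℕ :=
  ∑ᶠ c : Quotient (chainSetoid p G), kB p O d B (chainStabilizer c.out.1)

/-- **Parity decides, in one sequence of groups.** Let `p` be an odd prime, `q ≥ 2` an integer not
divisible by `p` and `N` an infinite set of natural numbers. `S_d(B) = 0` for all `d`, all finite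
groups `G` with `O_p(G) = 1` and all blocks `B` of `G` with nontrivial defect groups if and only if
`T_d(B)` is even for all `d`, all `n ∈ N` and all blocks `B` of `M_n(ℤ/q) ⋊ S_n` with nontrivial defect
groups. -/
theorem result (p : ℕ) [Fact p.Prime] (hp2 : p ≠ 2) (O : ValuationSubring ℂ)
    (hpO : (p : ℂ) ∈ O.nonunits) (q : ℕ) (hq : 2 ≤ q) (hpq : ¬ p ∣ q) (N : Set ℕ)
    (hN : N.Infinite) :
    (∀ (G : Type) [Group G] (B : Set (G → ℂ)), AdmB p O G B → ∀ d, S p O d B = 0) ↔
      ∀ n ∈ N, ∀ B : Set (MatGrp q n → ℂ), AdmB p O (MatGrp q n) B → ∀ d, Even (T p O d B) :=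
  Run7.h45.dade_even_mat hp2 hpO hq hpq hN

end Pool.Agent.Results.MP_3f89b9_al.ParityInFamily
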