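import Pool.Agent.Run7.h45.Ch10

/-!
# Dade's ordinary conjecture and perfect groups with alternating composition factors

`O` is a valuation subring of `ℂ` whose maximal ideal contains `p`; blocks, defect groups and block
induction are defined by central characters modulo this maximal ideal. For a subgroup `H` of the
alternating group `A_n` let `Z(A_n/H)` be the group of the functions `A_n/H → ℤ/q` with sum `0`, and let
`Z(A_n/H) ⋊ A_n` be its extension by `A_n`, which permutes the cosets.

Proof. Let `B` be a block of a finite group `G`, embedded into `A_n` as a subgroup `H` of index at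
least `3`. The evaluation at the trivial coset is a character of `Z(A_n/H)` with stabiliser `H`, and
Dade's sums for the corresponding block of `Z(A_n/H) ⋊ A_n` are those of `B` (`Run7.h45.blkDef_up`). For
one-sided bounds one uses direct squares and powers.
-/

set_option autoImplicit false

noncomputable section

namespace Pool.Agent.Results.MP_3f89b9_al.PerfectGroups

open Filter
open Pool.Agent.Y63.KR (alternatingSum chainSetoid chainStabilizer)
open Pool.Agent.Q90.WR (IndS AdmB)
open Run7.h45 (ZSGrp)

/-- `k^d(B_σ)` for `G_σ = H`: the number of the irreducible characters `θ` of the subgroup `H` of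
`p`-defect `d` with `bl(θ)^G = B`. -/
def kB (p : ℕ) (O : ValuationSubring ℂ) (d : ℕ) {G : Type} [Group G] (B : Set (G → ℂ))
    (H : Subgroup G) : ℕ :=
  Nat.card {θ : H → ℂ // θ ∈ IndS O B (Subtype.val : H → G) ∧
    ∃ n : ℕ, θ 1 = (n : ℂ) ∧ n.factorization p + d = (Nat.card H).factorization p}

/-- Dade's alternating sum `∑_σ (-1)^|σ| k^d(B_σ)` over representatives `σ` of the `G`-classes of
chains of nontrivial `p`-subgroups of `G`, the empty chain included. -/
def S (p : ℕ) (O : ValuationSubring ℂ) (d : ℕ) {G : Type} [Group G] (B : Set (G → ℂ)) : ℤ :=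
  alternatingSum p G (fun H => (kB p O d B H : ℤ))

/-- **Dade's ordinary conjecture and perfect groups.** Let `p` be a prime and `q ≥ 2` an integer not
divisible by `p`. (1) For `n ≥ 5` and all subgroups `H ≤ A_n` the group `Z(A_n/H) ⋊ A_n` is perfect.
(2) Let `N` be an infinite set of natural numbers. `S_d(B) = 0` for all `d`, all finite groups `G` with
`O_p(G) = 1` and all blocks `B` of `G` with nontrivial defect groups if and only if `S_d(B) ≤ 0` for all
`d` and all such blocks `B` of the groups `Z(A_n/H) ⋊ A_n` with `5 ≤ n ∈ N`, `H ≤ A_n`. (3) If `p` is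
odd, this holds if and only if for every `ε > 0` there are infinitely many `n` such that
`S_d(B) ≤ exp (ε n)` for all `d`, all `H ≤ A_n` and all such blocks of `Z(A_n/H) ⋊ A_n`. -/
theorem result (p : ℕ) [Fact p.Prime] (O : ValuationSubring ℂ) (hpO : (p : ℂ) ∈ O.nonunits)
    (q : ℕ) (hq : 2 ≤ q) (hpq : ¬ p ∣ q) :
    (∀ n : ℕ, 5 ≤ n → ∀ H : Subgroup (alternatingGroup (Fin n)),
      commutator (ZSGrp q (alternatingGroup (Fin n)) H) = ⊤) ∧
    (∀ N : Set ℕ, N.Infinite →
      ((∀ (G : Type) [Group G] (B : Set (G → ℂ)), AdmB p O G B → ∀ d, S p O d B = 0) ↔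
        ∀ n ∈ N, 5 ≤ n → ∀ (H : Subgroup (alternatingGroup (Fin n)))
          (B : Set (ZSGrp q (alternatingGroup (Fin n)) H → ℂ)), AdmB p O _ B →
            ∀ d, S p O d B ≤ 0)) ∧
    (p ≠ 2 →
      ((∀ (G : Type) [Group G] (B : Set (G → ℂ)), AdmB p O G B → ∀ d, S p O d B = 0) ↔
        ∀ ε : ℝ, 0 < ε → ∃ᶠ n : ℕ in atTop, ∀ (H : Subgroup (alternatingGroup (Fin n)))
          (B : Set (ZSGrp q (alternatingGroup (Fin n)) H → ℂ)), AdmB p O _ B →
            ∀ d, (S p O d B : ℝ) ≤ Real.exp (ε * n))) := by
  have : NeZero q := ⟨by omega⟩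
  refine ⟨fun n hn H => Run7.h45.perfect_alt hn H,
    fun N hN => Run7.h45.dade_nonpos_alt hpO hq hpq hN, fun hp2 => ⟨fun h ε hε =>
      Frequently.of_forall fun n H B hB d => ?_, fun h => ?_⟩⟩
  · rw [h _ B hB d, Int.cast_zero]
    exact (Real.exp_pos _).le
  · exact Run7.h45.dade_of_one hp2 hpO fun G _ B hB =>
      Run7.h45.def_le_one hB (Run7.h45.dade_grow_alt hpO hq hpq h G B hB)

end Pool.Agent.Results.MP_3f89b9_al.PerfectGroups
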