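import Pool.Agent.Run7.h45.Ch10

/-!
# Dade's ordinary conjecture in one sequence of groups

`O` is a valuation subring of `ℂ` whose maximal ideal contains `p`; blocks, defect groups and block
induction are defined by central characters modulo this maximal ideal. Let `q ≥ 2` be an integer not
divisible by `p` and `Γ_n = M_n(ℤ/q) ⋊ S_n` the semidirect product of the additive group of the
`n × n` matrices over `ℤ/q` with `S_n`, which permutes the rows and the columns simultaneously.

Proof. Let `Γ` be a finite group with an abelian normal `p'`-subgroup `V`, and `θ` a linear character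
of `V` whose stabiliser is `V ⋊ G`. The blocks of `G` correspond to the blocks of `Γ` above `θ`, and
`S_d(B') = S_d(B)` for corresponding blocks: in Dade's sum one may restrict to the chains of `p`-subgroups
which are contained in their stabiliser `Γ_σ`; the characters of these stabilisers whose block induces to
`B'` lie above a conjugate of `θ` restricted to the centraliser of the largest subgroup in the chain,
which determines (up to conjugacy) a chain of `G` and a character of its stabiliser, and conversely. Every
finite group `G` is the stabiliser in `S_n` of a character of `M_n(ℤ/q)`, for all large `n`. Therefore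
`S_d(B) ≤ 0` for all groups, and the direct squares give equality.
-/

set_option autoImplicit false

noncomputable section

namespace Pool.Agent.Results.MP_3f89b9_al.UniversalFamily

open Pool.Agent.Y63.KR (alternatingSum chainSetoid chainStabilizer)
open Pool.Agent.Q90.WR (IndS AdmB)
open Run7.h45 (MatGrp)

/-- `k^d(B_σ)` for `G_σ = H`: the number of the irreducible characters `θ` of the subgroup `H` of
`p`-defect `d` with `bl(θ)^G = B`. -/
def kB (p : ℕ) (O : ValuationSubring ℂ) (d : ℕ) {G : Type} [Group G] (B : Set (G → ℂ))
    (H : Subgroup G) : ℕ :=
  Nat.card {θ : H → ℂ // θ ∈ IndS O B (Subtype.val : H → G) ∧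
    ∃ n : ℕ, θ 1 = (n : ℂ) ∧ n.factorization p + d = (Nat.card H).factorization p}

/-- Dade's alternating sum `∑_σ (-1)^|σ| k^d(B_σ)` over representatives `σ` of the `G`-classes of
chains of nontrivial `p`-subgroups of `G`, the empty chain included. -/
def S (p : ℕ) (O : ValuationSubring ℂ) (d : ℕ) {G : Type} [Group G] (B : Set (G → ℂ)) : ℤ :=
  alternatingSum p G (fun H => (kB p O d B H : ℤ))

/-- **Dade's ordinary conjecture in one sequence of groups.** Let `p` be a prime, `q ≥ 2` an integer
not divisible by `p` and `N` an infinite set of natural numbers. `S_d(B) = 0` for all `d`, all finite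
groups `G` with `O_p(G) = 1` and all blocks `B` of `G` with nontrivial defect groups if and only if
`S_d(B) ≤ 0` for all `d`, all `n ∈ N` and all blocks `B` of `M_n(ℤ/q) ⋊ S_n` with nontrivial defect
groups. -/
theorem result (p : ℕ) [Fact p.Prime] (O : ValuationSubring ℂ) (hpO : (p : ℂ) ∈ O.nonunits)
    (q : ℕ) (hq : 2 ≤ q) (hpq : ¬ p ∣ q) (N : Set ℕ) (hN : N.Infinite) :
    (∀ (G : Type) [Group G] (B : Set (G → ℂ)), AdmB p O G B → ∀ d, S p O d B = 0) ↔
      ∀ n ∈ N, ∀ B : Set (MatGrp q n → ℂ), AdmB p O (MatGrp q n) B → ∀ d, S p O d B ≤ 0 :=
  Run7.h45.dade_nonpos_mat hpO hq hpq hN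

end Pool.Agent.Results.MP_3f89b9_al.UniversalFamily
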